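import Mathlib
import Pool.Agent.H27.CMeas

namespace Pool.Agent.Results.MP_148afe_an.Discont

open MeasureTheory Filter Finset Pool.Agent.H27.CMeas Polynomial
open scoped FourierTransform RealInnerProductSpace Topology SchwartzMap Convolution ENNReal
  BoundedContinuousFunction

variable {V : Type} [NormedAddCommGroup V] [InnerProductSpace ℝ V] [FiniteDimensional ℝ V]
  [MeasurableSpace V] [BorelSpace V]

/-- `‖μ‖_K = sup_x |μ|(x + K)` -/
noncomputable def normK (K : Set V) (μ : CMeas V) : ℝ≥0∞ := ⨆ x : V, μ.tv ((fun y => x + y) '' K)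

/-- `ν` is the Fourier transform of `μ` -/
def IsFT (μ ν : CMeas V) : Prop :=
  ∀ f, Cc f → MemLp (𝓕⁻ f) 2 ν.tv ∧
    μ.app (fun x => ∫ t, f t * (starRingEnd ℂ) (f (-(x - t)))) =
      ν.app (fun y => ((‖𝓕⁻ f y‖ ^ 2 : ℝ) : ℂ))

lemma isFT_comb (φ : 𝓢(V, ℂ)) (v : V) (p : Polynomial ℂ) :
    IsFT (ofDens _ (comb_cont φ v p)) (ofDens _ (fourier_comb_cont φ v p)) := by
  intro f hf
  have hi : Integrable f := hf.1.integrable_of_hasCompactSupport hf.2
  have hi2 : Integrable fun x => (starRingEnd ℂ) (f (-x)) :=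
    (Complex.conjCLE : ℂ →L[ℝ] ℂ).integrable_comp hi.comp_neg
  haveI := finite_ofDens _ (fourier_comb_cont φ v p) (fourier_comb_int φ v p)
  refine ⟨MemLp.of_bound (cont_inv f hi).aestronglyMeasurable _
    (Eventually.of_forall (norm_inv_le f)), ?_⟩
  rw [app_ofDens, app_ofDens]
  have hc : Integrable (f ⋆[ContinuousLinearMap.mul ℂ ℂ] fun x => (starRingEnd ℂ) (f (-x))) :=
    hi.integrable_convolution _ hi2
  refine (dual _ (comb_cont φ v p) (comb_int φ v p) (fourier_comb_int φ v p) _ hc).trans ?_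
  congr 1; ext y; congr 1
  rw [Real.fourierInv_eq_fourier_neg, Real.fourier_mul_convolution_eq hi hi2,
    Real.fourierInv_eq_fourier_neg]
  have : 𝓕 (fun x => (starRingEnd ℂ) (f (-x))) (-y) = (starRingEnd ℂ) (𝓕 f (-y)) := by
    rw [Real.fourier_eq', Real.fourier_eq', ← integral_conj, ← integral_neg_eq_self]
    congr 1; ext x
    simp only [smul_eq_mul, map_mul, neg_neg, ← Complex.exp_conj, Complex.conj_ofReal,
      Complex.conj_I, inner_neg_left]
    congr 2; push_cast; ring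
  rw [this, Complex.mul_conj']; push_cast; rfl

/-- Rudin-Shapiro pairs -/
noncomputable def RS : ℕ → ℂ[X] × ℂ[X]
  | 0 => (1, 1)
  | k + 1 => ((RS k).1 + X ^ 2 ^ k * (RS k).2, (RS k).1 - X ^ 2 ^ k * (RS k).2)

lemma RS_coeff (k : ℕ) : (∀ j, ‖(RS k).1.coeff j‖ ≤ 1 ∧ ‖(RS k).2.coeff j‖ ≤ 1) ∧
    ∀ j, 2 ^ k ≤ j → (RS k).1.coeff j = 0 ∧ (RS k).2.coeff j = 0 := by
  induction k with
  | zero =>
    refine ⟨fun j => ?_, fun j hj => ?_⟩
    · simp only [RS, coeff_one]; split_ifs <;> simp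
    · have : j ≠ 0 := by omega
      simp [RS, coeff_one, this]
  | succ k ih =>
    refine ⟨fun j => ?_, fun j hj => ?_⟩
    · simp only [RS, coeff_add, coeff_sub, coeff_X_pow_mul']
      split_ifs with h
      · simp [(ih.2 j h).1, (ih.1 _).2]
      · simp [(ih.1 _).1]
    · have h1 : 2 ^ k ≤ j := by rw [pow_succ] at hj; omega
      have h2 : 2 ^ k ≤ j - 2 ^ k := by rw [pow_succ] at hj; omega
      simp [RS, coeff_X_pow_mul', h1, (ih.2 j h1).1, (ih.2 _ h2).2]

lemma RS_eval (k : ℕ) (w : ℂ) (hw : ‖w‖ = 1) :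
    ‖(RS k).1.eval w‖ ^ 2 + ‖(RS k).2.eval w‖ ^ 2 = 2 ^ (k + 1) := by
  induction k with
  | zero => simp [RS]; norm_num
  | succ k ih =>
    simp only [RS, eval_add, eval_sub, eval_mul, eval_pow, eval_X]
    have := parallelogram_law_with_norm ℂ ((RS k).1.eval w) (w ^ 2 ^ k * (RS k).2.eval w)
    rw [norm_mul, norm_pow, hw, one_pow, one_mul] at this
    rw [pow_succ (2 : ℝ) (k + 1), ← ih]; nlinarith

lemma norm_comb (K : Set V) (hK : IsCompact K) (R : ℝ) (hR : ∀ x ∈ K, ‖x‖ ≤ R) (φ : 𝓢(V, ℂ))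
    (hφ : ∀ x, 1 ≤ ‖x‖ → φ x = 0) (v : V) (hv : ‖v‖ = 2 * R + 2) (p : ℂ[X]) (c : ℝ) (hc : 0 ≤ c)
    (hp : ∀ j, ‖p.coeff j‖ ≤ c) :
    normK K (ofDens _ (comb_cont φ v p)) ≤ ENNReal.ofReal c * ∫⁻ y, ‖φ y‖ₑ := by
  refine iSup_le fun x => ?_
  have hm : MeasurableSet ((fun y => x + y) '' K) := (hK.image (by fun_prop)).measurableSet
  rw [tv_ofDens _ _ hm]
  by_cases hex : ∃ j : ℕ, ∃ y ∈ K, φ (x + y - (j : ℝ) • v) ≠ 0
  · obtain ⟨j, y0, hy0, hj⟩ := hex
    calc ∫⁻ y in (fun y => x + y) '' K, ‖comb φ v p y‖ₑ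
        ≤ ∫⁻ y in (fun y => x + y) '' K, ENNReal.ofReal c * ‖φ (y - (j : ℝ) • v)‖ₑ := by
          refine setLIntegral_mono' hm ?_
          rintro _ ⟨y, hy, rfl⟩
          have key : ∀ i : ℕ, i ≠ j → φ (x + y - (i : ℝ) • v) = 0 := by
            intro i hij
            apply hφ
            have a1 : ‖x + y0 - (j : ℝ) • v‖ < 1 := by
              by_contra h; exact hj (hφ _ (not_lt.1 h))
            have a2 : 1 ≤ |(i : ℝ) - j| := by
              have : (1 : ℤ) ≤ |(i : ℤ) - j| := Int.one_le_abs (by omega)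
              exact_mod_cast this
            have a3 : ((i : ℝ) - j) • v = (x + y0 - (j : ℝ) • v) - (x + y - (i : ℝ) • v) + (y - y0) := by
              rw [sub_smul]; abel
            have a4 := norm_add_le ((x + y0 - (j : ℝ) • v) - (x + y - (i : ℝ) • v)) (y - y0)
            rw [← a3, norm_smul, hv, Real.norm_eq_abs] at a4
            have a5 := norm_sub_le (x + y0 - (j : ℝ) • v) (x + y - (i : ℝ) • v)
            have a6 := norm_sub_le y y0
            have := hR y hy
            have := hR y0 hy0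
            have := norm_nonneg y
            nlinarith
          have : ‖comb φ v p (x + y)‖ ≤ c * ‖φ (x + y - (j : ℝ) • v)‖ := by
            unfold comb
            rw [sum_eq_single j (fun i _ h => by rw [key i h, mul_zero])
              (fun h => by rw [notMem_support_iff.1 h, zero_mul]), norm_mul]
            gcongr; exact hp j
          rw [← ofReal_norm_eq_enorm, ← ofReal_norm_eq_enorm, ← ENNReal.ofReal_mul hc]
          exact ENNReal.ofReal_le_ofReal this
      _ ≤ ∫⁻ y, ENNReal.ofReal c * ‖φ (y - (j : ℝ) • v)‖ₑ := setLIntegral_le_lintegral _ _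
      _ = _ := by
          rw [lintegral_const_mul' _ _ ENNReal.ofReal_ne_top,
            lintegral_sub_right_eq_self (fun y => ‖φ y‖ₑ)]
  · push Not at hex
    refine le_of_eq_of_le (setLIntegral_eq_zero hm ?_) zero_le
    rintro _ ⟨y, hy, rfl⟩
    simp [comb, hex _ y hy]

theorem main [Nontrivial V] (K : Set V) (hK : IsCompact K) : ∃ μ μh : ℕ → CMeas V,
    (∀ n, normK K (μ n) < ⊤) ∧ (∀ n, IsFT (μ n) (μh n)) ∧
      Tendsto (fun n => normK K (μ n)) atTop (𝓝 0) ∧
      ∃ g, Cc g ∧ ¬ Tendsto (fun n => (μh n).app g) atTop (𝓝 0) := by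
  obtain ⟨φ, hφ, y0, hy0⟩ := exists_bump (V := V)
  obtain ⟨R, hR0, hR⟩ := hK.isBounded.exists_pos_norm_le
  obtain ⟨v, hv⟩ := exists_norm_eq V (show 0 ≤ 2 * R + 2 by linarith)
  have cF : Continuous (𝓕 (φ : V → ℂ)) := (𝓕 φ).continuous
  let b : ContDiffBump y0 := ⟨1, 2, by norm_num, by norm_num⟩
  have hb := b.continuous
  set w : V → ℝ := fun y => b y * ‖𝓕 (φ : V → ℂ) y‖ ^ 2 with hw
  have wc : Continuous w := by fun_prop
  have ws : HasCompactSupport w := b.hasCompactSupport.mul_right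
  have w0 : ∀ y, 0 ≤ w y := fun y => mul_nonneg (b.nonneg' y) (by positivity)
  have wp : 0 < ∫ y, w y := by
    refine wc.integral_pos_of_hasCompactSupport_nonneg_nonzero (x := y0) ws w0 ?_
    simp only [hw]
    rw [b.one_of_mem_closedBall (by simp [b])]
    simpa using hy0
  have cz := cont_z v
  have iw : ∀ q : ℂ[X], Integrable fun y => w y * ‖q.eval (z v y)‖ ^ 2 := fun q => by
    have := q.continuous
    exact Continuous.integrable_of_hasCompactSupport (by fun_prop) ws.mul_right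
  have ex : ∀ m : ℕ, ∃ q : ℂ[X], (∀ j, ‖q.coeff j‖ ≤ 1) ∧ (∀ y, ‖q.eval (z v y)‖ ≤ 2 ^ (m + 1)) ∧
      2 ^ (2 * m + 1) * ∫ y, w y ≤ ∫ y, w y * ‖q.eval (z v y)‖ ^ 2 := by
    intro m
    have hs := fun y => RS_eval (2 * m + 1) _ (norm_z v y)
    have e2 : (2 : ℝ) ^ (2 * m + 1 + 1) = (2 ^ (m + 1)) ^ 2 := by ring
    have sum : (∫ y, w y * ‖(RS (2 * m + 1)).1.eval (z v y)‖ ^ 2) +
        ∫ y, w y * ‖(RS (2 * m + 1)).2.eval (z v y)‖ ^ 2 = 2 * (2 ^ (2 * m + 1) * ∫ y, w y) := by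
      rw [← integral_add (iw _) (iw _), ← mul_assoc, ← integral_const_mul]
      congr 1; ext y; rw [← mul_add, hs]; ring
    by_cases h : 2 ^ (2 * m + 1) * ∫ y, w y ≤ ∫ y, w y * ‖(RS (2 * m + 1)).1.eval (z v y)‖ ^ 2
    · refine ⟨_, fun j => ((RS_coeff _).1 j).1, fun y => ?_, h⟩
      refine (pow_le_pow_iff_left₀ (by positivity) (by positivity) two_ne_zero).1 ?_
      rw [← e2, ← hs y]; simp
    · refine ⟨_, fun j => ((RS_coeff _).1 j).2, fun y => ?_, by linarith [not_le.1 h]⟩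
      refine (pow_le_pow_iff_left₀ (by positivity) (by positivity) two_ne_zero).1 ?_
      rw [← e2, ← hs y]; simp
  choose q hq1 hq2 hq3 using ex
  set p : ℕ → ℂ[X] := fun m => C (((2 / 3 : ℝ) ^ m : ℝ) : ℂ) * q m with hp
  have fin : ∫⁻ y, ‖φ y‖ₑ ≠ ⊤ := φ.integrable.2.ne
  have bd : ∀ m, normK K (ofDens _ (comb_cont φ v (p m))) ≤
      ENNReal.ofReal ((2 / 3) ^ m) * ∫⁻ y, ‖φ y‖ₑ := fun m =>
    norm_comb K hK R hR φ hφ v hv _ _ (by positivity) fun j => by
      simp only [hp, coeff_C_mul, norm_mul, Complex.norm_real]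
      rw [Real.norm_of_nonneg (by positivity)]
      exact mul_le_of_le_one_right (by positivity) (hq1 m j)
  refine ⟨fun n => ofDens _ (comb_cont φ v (p n)), fun n => ofDens _ (fourier_comb_cont φ v (p n)),
    fun n => (bd n).trans_lt (ENNReal.mul_lt_top ENNReal.ofReal_lt_top fin.lt_top),
    fun n => isFT_comb φ _ _, ?_, ?_⟩
  · have := ENNReal.Tendsto.mul_const (b := ∫⁻ y, ‖φ y‖ₑ) (ENNReal.tendsto_ofReal
      (tendsto_pow_atTop_nhds_zero_of_lt_one (r := (2 / 3 : ℝ)) (by norm_num) (by norm_num)))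
      (Or.inr fin)
    simp only [ENNReal.ofReal_zero, zero_mul] at this
    exact tendsto_of_tendsto_of_tendsto_of_le_of_le tendsto_const_nhds this (fun _ => zero_le) bd
  · by_contra hn
    push Not at hn
    have iW : ∀ m, Integrable fun y => (w y : ℂ) * (p m).eval (z v y) := fun m => by
      have := (p m).continuous
      exact Continuous.integrable_of_hasCompactSupport (by fun_prop)
        (ws.comp_left (g := fun r : ℝ => (r : ℂ)) (by simp)).mul_right
    have ih : ∀ m (h : V →ᵇ ℂ), Integrable fun y => h y * ((w y : ℂ) * (p m).eval (z v y)) :=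
      fun m h => (iW m).bdd_mul h.continuous.aestronglyMeasurable
        (Eventually.of_forall h.norm_coe_le_norm)
    let T : ℕ → (V →ᵇ ℂ) →L[ℂ] ℂ := fun m => LinearMap.mkContinuous
      { toFun := fun h => ∫ y, h y * ((w y : ℂ) * (p m).eval (z v y))
        map_add' := fun h1 h2 => by
          rw [← integral_add (ih m h1) (ih m h2)]; congr 1; ext y; simp [add_mul]
        map_smul' := fun c h => by
          simp only [RingHom.id_apply, smul_eq_mul]
          rw [← integral_const_mul]; congr 1; ext y; simp [mul_assoc] }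
      (∫ y, ‖(w y : ℂ) * (p m).eval (z v y)‖) fun h => by
        simp only [LinearMap.coe_mk, AddHom.coe_mk]
        rw [mul_comm, ← integral_const_mul]
        refine norm_integral_le_of_norm_le ((iW m).norm.const_mul _)
          (Eventually.of_forall fun y => ?_)
        rw [norm_mul]; gcongr; exact h.norm_coe_le_norm y
    have Tdef : ∀ m h, T m h = ∫ y, h y * ((w y : ℂ) * (p m).eval (z v y)) := fun _ _ => rfl
    obtain ⟨C, hC⟩ := banach_steinhaus (g := T) fun h => by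
      have hh := h.continuous
      have := hn (fun y => (b y : ℂ) * (starRingEnd ℂ) (𝓕 (φ : V → ℂ) y) * h y) ⟨by fun_prop,
        (b.hasCompactSupport.comp_left (g := fun r : ℝ => (r : ℂ)) (by simp)).mul_right.mul_right⟩
      have e : ∀ m, (ofDens _ (fourier_comb_cont φ v (p m))).app
          (fun y => (b y : ℂ) * (starRingEnd ℂ) (𝓕 (φ : V → ℂ) y) * h y) = T m h := fun m => by
        rw [app_ofDens, Tdef]; congr 1; ext y
        rw [fourier_comb, hw]; push_cast; rw [← Complex.conj_mul']; ring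
      simp only [e] at this
      obtain ⟨C, hC⟩ := this.norm.bddAbove_range
      exact ⟨C, fun m => hC ⟨m, rfl⟩⟩
    have low : ∀ m, (4 / 3 : ℝ) ^ m * ∫ y, w y ≤ 2 * C := by
      intro m
      have cq := (q m).continuous
      let h : V →ᵇ ℂ := BoundedContinuousFunction.ofNormedAddCommGroup
        (fun y => (starRingEnd ℂ) ((q m).eval (z v y))) (by fun_prop) (2 ^ (m + 1))
        (fun y => by simpa using hq2 m y)
      have h1 : ‖h‖ ≤ 2 ^ (m + 1) :=
        BoundedContinuousFunction.norm_ofNormedAddCommGroup_le _ (by positivity) _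
      have h2 : T m h = (((2 / 3 : ℝ) ^ m * ∫ y, w y * ‖(q m).eval (z v y)‖ ^ 2 : ℝ) : ℂ) := by
        rw [Tdef, ← integral_const_mul, ← integral_complex_ofReal]; congr 1; ext y
        simp only [h, hp, BoundedContinuousFunction.coe_ofNormedAddCommGroup, eval_mul, eval_C]
        push_cast; rw [← Complex.conj_mul']; ring
      have h3 := (T m).le_opNorm h
      rw [h2, Complex.norm_real] at h3
      have h4 := (le_abs_self _).trans h3
      have h5 : ‖T m‖ * ‖h‖ ≤ C * 2 ^ (m + 1) :=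
        mul_le_mul (hC m) h1 (norm_nonneg _) ((norm_nonneg _).trans (hC m))
      have h6 : (2 / 3 : ℝ) ^ m * (2 ^ (2 * m + 1) * ∫ y, w y) ≤ C * 2 ^ (m + 1) :=
        (mul_le_mul_of_nonneg_left (hq3 m) (by positivity)).trans (h4.trans h5)
      have e : (2 / 3 : ℝ) ^ m * (2 ^ (2 * m + 1) * ∫ y, w y) =
          ((4 / 3 : ℝ) ^ m * ∫ y, w y) * 2 ^ (m + 1) := by
        rw [show (4 / 3 : ℝ) = 2 / 3 * 2 by norm_num, mul_pow]; ring
      rw [e] at h6
      have := le_of_mul_le_mul_right h6 (by positivity)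
      have := (norm_nonneg _).trans (hC m)
      linarith
    obtain ⟨m, hm⟩ := pow_unbounded_of_one_lt (2 * C / ∫ y, w y) (by norm_num : (1 : ℝ) < 4 / 3)
    rw [div_lt_iff₀ wp] at hm
    linarith [low m]

theorem result (d : ℕ) (hd : 1 ≤ d) (K : Set (EuclideanSpace ℝ (Fin d))) (hK : IsCompact K)
    (_hi : (interior K).Nonempty) : ∃ μ μh : ℕ → CMeas (EuclideanSpace ℝ (Fin d)),
    (∀ n, normK K (μ n) < ⊤) ∧ (∀ n, IsFT (μ n) (μh n)) ∧
      Tendsto (fun n => normK K (μ n)) atTop (𝓝 0) ∧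
      ∃ g, Cc g ∧ ¬ Tendsto (fun n => (μh n).app g) atTop (𝓝 0) := by
  haveI : Nonempty (Fin d) := ⟨⟨0, hd⟩⟩
  exact main K hK

end Pool.Agent.Results.MP_148afe_an.Discont
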